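import Pool.Agent.W417.HP.Cnt

/-!
# Generic zeros of an irreducible polynomial
-/

set_option autoImplicit false

open W560.HP Polynomial

namespace Pool.Agent.W417.HP

/-- Comparing the number of independent elements which are algebraic over a finite set. -/
theorem card_le_of_alg {k Q : Type} [Field k] [Field Q] [Algebra k Q] (κ : Type) [Fintype κ]
    (t : κ → Q) (ht : AlgebraicIndependent k t) (S : Set Q)
    (h : ∀ i, IsAlgebraic (IntermediateField.adjoin k S) (t i)) :
    (Fintype.card κ : ℕ∞) ≤ S.encard := by
  have hinj : FaithfulSMul k Q := inferInstance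
  have h1 : (AlgebraicIndependent.matroid k Q).Indep (Set.range t) := by
    rw [AlgebraicIndependent.matroid_indep_iff]
    exact ht.coe_range
  have h2 : Set.range t ⊆ (AlgebraicIndependent.matroid k Q).closure S := by
    rw [AlgebraicIndependent.matroid_closure_eq]
    rintro _ ⟨i, rfl⟩
    show t i ∈ Subalgebra.algebraicClosure (Algebra.adjoin k S) Q
    rw [Subalgebra.mem_algebraicClosure]
    exact IntermediateField.isAlgebraic_adjoin_iff.1 (h i)
  have h3 := h1.encard_le_eRk_of_subset h2
  rw [Matroid.eRk_closure_eq] at h3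
  have h4 := Matroid.eRk_le_encard (AlgebraicIndependent.matroid k Q) S
  refine le_trans ?_ (h3.trans h4)
  refine le_trans (le_of_eq ?_) (Function.Injective.encard_range ht.injective)
  simp

/-- A coordinate such that the other ones are independent. -/
theorem exists_coord {k Q σ : Type} [Field k] [Field Q] [Algebra k Q] [Fintype σ]
    (y : σ → Q) (hdep : ¬ AlgebraicIndependent k y) (κ : Type) [Fintype κ] (t : κ → Q)
    (hcard : Fintype.card κ + 1 = Fintype.card σ) (ht : AlgebraicIndependent k t)
    (halg : ∀ i, IsAlgebraic (IntermediateField.adjoin k (Set.range y)) (t i)) :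
    ∃ s : σ, AlgebraicIndependent k (fun j : {j : σ // j ≠ s} => y j) := by
  classical
  obtain ⟨J, hJ, hmax⟩ := Finset.exists_max_image
    (Finset.univ.filter (fun J : Finset σ => AlgebraicIndepOn k y (J : Set _)))
    Finset.card ⟨∅, by
      rw [Finset.mem_filter]
      refine ⟨Finset.mem_univ _, ?_⟩
      have : IsEmpty ((∅ : Finset σ) : Set σ) := by simp
      exact algebraicIndependent_empty_type_iff.2 (algebraMap k Q).injective⟩
  have hJi : AlgebraicIndepOn k y (J : Set σ) := (Finset.mem_filter.1 hJ).2
  have hyalg : ∀ i, IsAlgebraic (IntermediateField.adjoin k (y '' (J : Set σ))) (y i) := by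
    intro i
    by_cases hi : i ∈ J
    · exact isAlgebraic_algebraMap (⟨y i, IntermediateField.subset_adjoin _ _ ⟨i, hi, rfl⟩⟩ :
        IntermediateField.adjoin k (y '' (J : Set σ)))
    · by_contra hcon
      have h1 : Transcendental (Algebra.adjoin k (y '' (J : Set σ))) (y i) :=
        IntermediateField.transcendental_adjoin_iff.1 hcon
      have h2 := hJi.insert h1
      have h3 := hmax (insert i J) (by
        rw [Finset.mem_filter]
        refine ⟨Finset.mem_univ _, ?_⟩
        rw [Finset.coe_insert]
        exact h2)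
      rw [Finset.card_insert_of_notMem hi] at h3
      omega
  have hJne : J ≠ Finset.univ := by
    intro h
    apply hdep
    have h1 : ∀ i, i ∈ (J : Set σ) := fun i => by rw [h]; simp
    exact hJi.comp (fun i : σ => (⟨i, h1 i⟩ : (J : Set σ)))
      (fun i j hij => congrArg Subtype.val hij)
  have hJcard : J.card < Fintype.card σ := (Finset.card_lt_iff_ne_univ J).2 hJne
  have h4 : (Fintype.card κ : ℕ∞) ≤ (y '' (J : Set σ)).encard := by
    refine card_le_of_alg κ t ht _ fun i => ?_
    refine alg_trans ?_ (halg i)
    rintro _ ⟨j, rfl⟩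
    exact hyalg j
  have h5 : (y '' (J : Set σ)).encard ≤ (J.card : ℕ∞) := by
    refine (Set.encard_image_le _ _).trans (le_of_eq ?_)
    exact Set.encard_coe_eq_coe_finsetCard J
  have h6 : Fintype.card κ ≤ J.card := by exact_mod_cast h4.trans h5
  obtain ⟨s, hs⟩ : ∃ s, s ∉ J := by
    by_contra hcon
    push Not at hcon
    exact hJne (Finset.eq_univ_of_forall hcon)
  have h7 : J = Finset.univ.erase s := by
    apply Finset.eq_of_subset_of_card_le
    · intro j hj
      rw [Finset.mem_erase]
      exact ⟨fun h => hs (h ▸ hj), Finset.mem_univ _⟩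
    · rw [Finset.card_erase_of_mem (Finset.mem_univ _), Finset.card_univ]
      omega
  refine ⟨s, ?_⟩
  have h8 : ∀ j : {j : σ // j ≠ s}, (j : σ) ∈ (J : Set σ) := by
    intro j
    rw [h7]
    simp [j.2]
  exact hJi.comp (fun j : {j : σ // j ≠ s} => (⟨j, h8 j⟩ : (J : Set σ)))
    (fun i j hij => by
      have h9 := congrArg (fun z : (J : Set σ) => (z : σ)) hij
      exact Subtype.ext h9)

/-- A polynomial as a polynomial in one of the variables. -/
noncomputable def polyAt (k : Type) {σ : Type} [Field k] [DecidableEq σ] (s : σ) :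
    MvPolynomial σ k ≃ₐ[k] (MvPolynomial {j : σ // j ≠ s} k)[X] :=
  (MvPolynomial.renameEquiv k (Equiv.optionSubtypeNe s).symm).trans
    (MvPolynomial.optionEquivLeft k {j : σ // j ≠ s})

theorem polyAt_aeval {k Q σ : Type} [Field k] [Field Q] [Algebra k Q] [DecidableEq σ] (s : σ)
    (y : σ → Q) (G : MvPolynomial σ k) :
    (polyAt k s G).eval₂
      (MvPolynomial.aeval (fun j : {j : σ // j ≠ s} => y j) :
        MvPolynomial {j : σ // j ≠ s} k →ₐ[k] Q).toRingHom (y s) = MvPolynomial.aeval y G := by
  induction G using MvPolynomial.induction_on with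
  | C a =>
    have h1 : polyAt k s (MvPolynomial.C a) = C (MvPolynomial.C a) := by
      show MvPolynomial.optionEquivLeft k _ (MvPolynomial.rename _ (MvPolynomial.C a)) = _
      rw [MvPolynomial.rename_C, MvPolynomial.optionEquivLeft_C]
    rw [h1, eval₂_C]
    show MvPolynomial.aeval _ (MvPolynomial.C a) = _
    rw [MvPolynomial.aeval_C, MvPolynomial.aeval_C]
  | add p q hp hq => rw [map_add, eval₂_add, hp, hq, map_add]
  | mul_X p i hp =>
    rw [map_mul, eval₂_mul, hp, map_mul, MvPolynomial.aeval_X]
    congr 1
    by_cases hi : i = s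
    · subst hi
      have h1 : polyAt k i (MvPolynomial.X i : MvPolynomial σ k) = X := by
        show MvPolynomial.optionEquivLeft k _ (MvPolynomial.rename _ (MvPolynomial.X i)) = _
        rw [MvPolynomial.rename_X]
        have : (Equiv.optionSubtypeNe i).symm i = none := by
          rw [Equiv.optionSubtypeNe_symm_apply, dif_pos rfl]
        rw [this, MvPolynomial.optionEquivLeft_X_none]
      rw [h1, eval₂_X]
    · have h1 : polyAt k s (MvPolynomial.X i : MvPolynomial σ k) =
          C (MvPolynomial.X ⟨i, hi⟩) := by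
        show MvPolynomial.optionEquivLeft k _ (MvPolynomial.rename _ (MvPolynomial.X i)) = _
        rw [MvPolynomial.rename_X]
        have : (Equiv.optionSubtypeNe s).symm i = some ⟨i, hi⟩ := by
          rw [Equiv.optionSubtypeNe_symm_apply, dif_neg hi]
        rw [this, MvPolynomial.optionEquivLeft_X_some]
      rw [h1, eval₂_C]
      show MvPolynomial.aeval _ (MvPolynomial.X _) = _
      rw [MvPolynomial.aeval_X]

/-- The one variable statement. -/
theorem dvd_of_eval {A Q : Type} [CommRing A] [IsDomain A] [IsGCDMonoid A] [Field Q]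
    (f : A →+* Q) (hf : Function.Injective f) (x : Q) (p q : A[X]) (hp : Irreducible p)
    (hpx : p.eval₂ f x = 0) (hqx : q.eval₂ f x = 0) : p ∣ q := by
  have hdeg : p.natDegree ≠ 0 := by
    intro h
    rw [Polynomial.eq_C_of_natDegree_eq_zero h, eval₂_C] at hpx
    have h1 : p.coeff 0 = 0 := hf (by rw [hpx, map_zero])
    apply hp.ne_zero
    rw [Polynomial.eq_C_of_natDegree_eq_zero h, h1, C_0]
  have hprim : p.IsPrimitive := hp.isPrimitive hdeg
  let K := FractionRing A
  let g : K →+* Q := IsFractionRing.lift hf
  have hg : g.comp (algebraMap A K) = f := by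
    ext a
    exact IsFractionRing.lift_algebraMap hf a
  let : Algebra K Q := g.toAlgebra
  have hirr : Irreducible (p.map (algebraMap A K)) :=
    (hprim.irreducible_iff_irreducible_map_fraction_map (K := K)).1 hp
  have hev : ∀ r : A[X], aeval x (r.map (algebraMap A K)) = r.eval₂ f x := by
    intro r
    rw [Polynomial.aeval_def, Polynomial.eval₂_map]
    congr 1
  have h1 : minpoly K x ∣ p.map (algebraMap A K) := minpoly.dvd K x (by rw [hev, hpx])
  have h2 : minpoly K x ∣ q.map (algebraMap A K) := minpoly.dvd K x (by rw [hev, hqx])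
  have hint : IsIntegral K x := by
    have : IsAlgebraic K x := ⟨p.map (algebraMap A K), hirr.ne_zero, by rw [hev, hpx]⟩
    exact this.isIntegral
  have h3 : Associated (minpoly K x) (p.map (algebraMap A K)) :=
    (hirr.dvd_iff.1 h1).resolve_left (minpoly.irreducible hint).not_isUnit |>.symm
  exact hprim.dvd_of_fraction_map_dvd_fraction_map (K := K) (h3.symm.dvd.trans h2)

theorem ker : S_KER := by
  classical
  intro k Q σ _ _ _ _ F y hF hFy ⟨κ, _, t, hcard, ht, halg⟩ G
  have hdep : ¬ AlgebraicIndependent k y := by
    intro h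
    apply hF.ne_zero
    rw [algebraicIndependent_iff] at h
    exact h F hFy
  obtain ⟨s, hs⟩ := exists_coord y hdep κ t hcard ht halg
  constructor
  · intro hG
    have hinj : Function.Injective (MvPolynomial.aeval (fun j : {j : σ // j ≠ s} => y j) :
        MvPolynomial {j : σ // j ≠ s} k →ₐ[k] Q).toRingHom := hs
    have h1 : polyAt k s F ∣ polyAt k s G := by
      have : IsGCDMonoid (MvPolynomial {j : σ // j ≠ s} k) := inferInstance
      refine dvd_of_eval _ hinj (y s) _ _ ?_ ?_ ?_
      · exact (MulEquiv.irreducible_iff (polyAt k s)).2 hF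
      · rw [polyAt_aeval, hFy]
      · rw [polyAt_aeval, hG]
    exact (map_dvd_iff (polyAt k s)).1 h1
  · rintro ⟨H, rfl⟩
    rw [map_mul, hFy, zero_mul]

end Pool.Agent.W417.HP
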