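import Pool.Agent.W417.HP.Der

/-!
# Adjoining variables to an algebraically closed extension
-/

set_option autoImplicit false

open W560.HP

namespace Pool.Agent.W417.HP

/-- A polynomial with values in `A` at all points of `A ^ n` has coefficients in `A`. -/
theorem coeff_mem {A B ι : Type} [Field A] [CharZero A] [Field B] [Algebra A B] [Finite ι]
    (P : MvPolynomial ι B)
    (hP : ∀ a : ι → A, ∃ b : A, MvPolynomial.eval (fun i => algebraMap A B (a i)) P =
      algebraMap A B b) :
    ∃ P' : MvPolynomial ι A, MvPolynomial.map (algebraMap A B) P' = P := by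
  classical
  have hc : ∀ m, ∃ c : A, algebraMap A B c = P.coeff m := by
    intro m
    by_contra hcon
    have hnm : P.coeff m ∉ Submodule.span A ({1} : Set B) := by
      intro h
      obtain ⟨c, hc⟩ := Submodule.mem_span_singleton.1 h
      apply hcon
      refine ⟨c, ?_⟩
      rw [← hc, Algebra.smul_def, mul_one]
    obtain ⟨lam, hlam, hker⟩ := Submodule.exists_le_ker_of_notMem hnm
    have h1 : lam 1 = 0 := hker (Submodule.subset_span rfl)
    set Q : MvPolynomial ι A := ∑ n ∈ P.support, MvPolynomial.monomial n (lam (P.coeff n)) with hQ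
    have hQ0 : Q = 0 := by
      apply MvPolynomial.funext
      intro a
      obtain ⟨b, hb⟩ := hP a
      have h2 : MvPolynomial.eval a Q = lam (MvPolynomial.eval (fun i => algebraMap A B (a i)) P) := by
        rw [hQ, map_sum, MvPolynomial.eval_eq, map_sum]
        apply Finset.sum_congr rfl
        intro n _
        rw [MvPolynomial.eval_monomial]
        have h3 : ∏ i ∈ n.support, algebraMap A B (a i) ^ n i =
            algebraMap A B (∏ i ∈ n.support, a i ^ n i) := by
          rw [map_prod]
          exact Finset.prod_congr rfl fun i _ => (map_pow _ _ _).symm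
        rw [h3, mul_comm, mul_comm (P.coeff n), ← Algebra.smul_def, lam.map_smul, smul_eq_mul]
        rfl
      have h4 : algebraMap A B b = b • (1 : B) := by rw [Algebra.smul_def, mul_one]
      rw [h2, hb, h4, lam.map_smul, h1, smul_zero, map_zero]
    have h5 : Q.coeff m = lam (P.coeff m) := by
      rw [hQ, MvPolynomial.coeff_sum]
      simp only [MvPolynomial.coeff_monomial]
      rw [Finset.sum_ite_eq']
      split_ifs with h
      · rfl
      · rw [MvPolynomial.notMem_support_iff.1 h, map_zero]
    rw [hQ0, MvPolynomial.coeff_zero] at h5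
    exact hlam h5.symm
  choose c hc using hc
  refine ⟨∑ n ∈ P.support, MvPolynomial.monomial n (c n), ?_⟩
  rw [map_sum]
  conv_rhs => rw [P.as_sum]
  apply Finset.sum_congr rfl
  intro n _
  rw [MvPolynomial.map_monomial, hc]

open scoped IntermediateField.algebraAdjoinAdjoin in
theorem bc1 : S_BC1 := by
  intro A B Ω ι _ _ _ _ _ _ _ _ _ t hAB ht x hx halg
  have htA : AlgebraicIndependent A t :=
    ht.restrictScalars (algebraMap A B).injective
  obtain ⟨a, ha, ha0, hint⟩ := exists_int halg
  -- the element is a polynomial over `B`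
  have hleA : ∀ y ∈ IntermediateField.adjoin A (Set.range t),
      y ∈ IntermediateField.adjoin B (Set.range t) := by
    intro y hy
    induction hy using IntermediateField.adjoin_induction with
    | mem s hs => exact IntermediateField.subset_adjoin B _ hs
    | algebraMap c =>
      rw [IsScalarTower.algebraMap_apply A B Ω]
      exact IntermediateField.algebraMap_mem _ _
    | add x y _ _ ihx ihy => exact add_mem ihx ihy
    | inv x _ ih => exact inv_mem ih
    | mul x y _ _ ihx ihy => exact mul_mem ihx ihy
  have hle : ∀ y ∈ Algebra.adjoin A (Set.range t), y ∈ Algebra.adjoin B (Set.range t) := by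
    intro y hy
    induction hy using Algebra.adjoin_induction with
    | mem s hs => exact Algebra.subset_adjoin hs
    | algebraMap c =>
      rw [IsScalarTower.algebraMap_apply A B Ω]
      exact Subalgebra.algebraMap_mem _ _
    | add x y _ _ ihx ihy => exact add_mem ihx ihy
    | mul x y _ _ ihx ihy => exact mul_mem ihx ihy
  have haK : a ∈ IntermediateField.adjoin A (Set.range t) :=
    IntermediateField.algebra_adjoin_le_adjoin A _ ha
  have hyK : a * x ∈ IntermediateField.adjoin B (Set.range t) := mul_mem (hleA a haK) hx
  -- the monic equation with coefficients in polynomials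
  obtain ⟨p, hp1, hp2⟩ := hint
  set e := htA.aevalEquiv with he
  set p' : Polynomial (MvPolynomial ι A) := p.map (e.symm : _ →+* MvPolynomial ι A) with hp'
  have hp'1 : p'.Monic := hp1.map _
  have hcomp : ((MvPolynomial.aeval t : MvPolynomial ι A →ₐ[A] Ω) : MvPolynomial ι A →+* Ω).comp
      (e.symm : _ →+* MvPolynomial ι A) = algebraMap (Algebra.adjoin A (Set.range t)) Ω := by
    ext y
    obtain ⟨q, rfl⟩ := e.surjective y
    show MvPolynomial.aeval t (e.symm (e q)) = _
    rw [AlgEquiv.symm_apply_apply]
    rfl
  have hp'2 : Polynomial.eval₂ ((MvPolynomial.aeval t : MvPolynomial ι A →ₐ[A] Ω) :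
      MvPolynomial ι A →+* Ω) (a * x) p' = 0 := by
    rw [hp', Polynomial.eval₂_map, hcomp]
    exact hp2
  have hmapt : ∀ q : MvPolynomial ι A, MvPolynomial.aeval t (MvPolynomial.map (algebraMap A B) q) =
      MvPolynomial.aeval t q := by
    intro q
    rw [MvPolynomial.aeval_map_algebraMap]
  -- integrality over the polynomials over `B`
  have hintB : IsIntegral (Algebra.adjoin B (Set.range t)) (a * x) := by
    let incl : Algebra.adjoin A (Set.range t) →+* Algebra.adjoin B (Set.range t) :=
      { toFun := fun y => ⟨y, hle y y.2⟩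
        map_one' := rfl
        map_mul' := fun _ _ => rfl
        map_zero' := rfl
        map_add' := fun _ _ => rfl }
    refine ⟨p.map incl, hp1.map _, ?_⟩
    rw [Polynomial.eval₂_map]
    exact hp2
  haveI : IsIntegrallyClosed (Algebra.adjoin B (Set.range t)) :=
    IsIntegrallyClosed.of_equiv (ht.aevalEquiv : MvPolynomial ι B ≃+* _)
  have hintB' : IsIntegral (Algebra.adjoin B (Set.range t))
      (⟨a * x, hyK⟩ : IntermediateField.adjoin B (Set.range t)) := by
    rw [← isIntegral_algebraMap_iff (B := Ω)
      (FaithfulSMul.algebraMap_injective (IntermediateField.adjoin B (Set.range t)) Ω)]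
    exact hintB
  obtain ⟨y, hy⟩ := IsIntegrallyClosed.isIntegral_iff.1 hintB'
  obtain ⟨P, hP⟩ := ht.aevalEquiv.surjective y
  have hPx : MvPolynomial.aeval t P = a * x := by
    have h1 := ht.algebraMap_aevalEquiv P
    rw [hP] at h1
    rw [← h1]
    exact congrArg Subtype.val hy
  -- its values
  have hval : ∀ c : ι → A, ∃ b : A, MvPolynomial.eval (fun i => algebraMap A B (c i)) P =
      algebraMap A B b := by
    intro c
    have h1 : Polynomial.eval₂ (MvPolynomial.map (algebraMap A B) : MvPolynomial ι A →+* _) P p' =
        0 := by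
      have hinj : Function.Injective (MvPolynomial.aeval t : MvPolynomial ι B →ₐ[B] Ω) :=
        algebraicIndependent_iff_injective_aeval.1 ht
      apply hinj
      rw [map_zero]
      have h2 := Polynomial.hom_eval₂ p' (MvPolynomial.map (algebraMap A B) : MvPolynomial ι A →+* _)
        ((MvPolynomial.aeval t : MvPolynomial ι B →ₐ[B] Ω) : MvPolynomial ι B →+* Ω) P
      have h3 : ((MvPolynomial.aeval t : MvPolynomial ι B →ₐ[B] Ω) : MvPolynomial ι B →+* Ω).comp
          (MvPolynomial.map (algebraMap A B) : MvPolynomial ι A →+* _) =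
          ((MvPolynomial.aeval t : MvPolynomial ι A →ₐ[A] Ω) : MvPolynomial ι A →+* Ω) := by
        ext q
        · show MvPolynomial.aeval t (MvPolynomial.map (algebraMap A B) (MvPolynomial.C q)) = _
          rw [hmapt]
          rfl
        · show MvPolynomial.aeval t (MvPolynomial.map (algebraMap A B) (MvPolynomial.X q)) = _
          rw [hmapt]
          rfl
      rw [h3] at h2
      have h4 : ((MvPolynomial.aeval t : MvPolynomial ι B →ₐ[B] Ω) : MvPolynomial ι B →+* Ω) P =
          a * x := hPx
      rw [h4, hp'2] at h2
      exact h2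
    have h5 := congrArg (MvPolynomial.eval (fun i => algebraMap A B (c i))) h1
    rw [map_zero, Polynomial.hom_eval₂] at h5
    have h6 : (MvPolynomial.eval (fun i => algebraMap A B (c i))).comp
        (MvPolynomial.map (algebraMap A B) : MvPolynomial ι A →+* _) =
        (algebraMap A B).comp (MvPolynomial.eval c) := by
      ext q
      · simp
      · simp
    rw [h6] at h5
    have h7 : IsIntegral A (MvPolynomial.eval (fun i => algebraMap A B (c i)) P) := by
      refine ⟨p'.map (MvPolynomial.eval c), hp'1.map _, ?_⟩
      rw [Polynomial.eval₂_map]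
      exact h5
    obtain ⟨b, hb⟩ := hAB _ h7.isAlgebraic
    exact ⟨b, hb.symm⟩
  obtain ⟨P', hP'⟩ := coeff_mem P hval
  have h8 : a * x ∈ IntermediateField.adjoin A (Set.range t) := by
    rw [← hPx, ← hP', hmapt]
    apply IntermediateField.algebra_adjoin_le_adjoin
    rw [Algebra.adjoin_range_eq_range_aeval]
    exact ⟨P', rfl⟩
  have h9 : x = a⁻¹ * (a * x) := by field_simp
  rw [h9]
  exact mul_mem (inv_mem haK) h8

end Pool.Agent.W417.HP
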