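import Pool.Agent.W417.HP.Der

/-!
# Counting transcendence degrees
-/

set_option autoImplicit false

open W560.HP Cardinal

namespace Pool.Agent.W417.HP

/-- Algebraic elements over a smaller field. -/
theorem alg_of_le {A B Ω : Type} [Field A] [Field B] [Field Ω] [Algebra A Ω] [Algebra B Ω]
    (h : ∀ a : A, ∃ b : B, algebraMap B Ω b = algebraMap A Ω a) {x : Ω} (hx : IsAlgebraic A x) :
    IsAlgebraic B x := by
  obtain ⟨p, hp0, hp⟩ := hx
  have h1 : p.map (algebraMap A Ω) ∈ Polynomial.lifts (algebraMap B Ω) := by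
    rw [Polynomial.lifts_iff_coeff_lifts]
    intro n
    rw [Polynomial.coeff_map]
    exact h _
  obtain ⟨q, hq⟩ := (Polynomial.mem_lifts _).1 h1
  refine ⟨q, ?_, ?_⟩
  · intro h0
    apply hp0
    rw [h0, Polynomial.map_zero] at hq
    exact (Polynomial.map_eq_zero_iff (algebraMap A Ω).injective).1 hq.symm
  · rw [Polynomial.aeval_def, ← Polynomial.eval_map, hq, Polynomial.eval_map,
      ← Polynomial.aeval_def, hp]

/-- Transitivity. -/
theorem alg_trans {k Ω : Type} [Field k] [Field Ω] [Algebra k Ω] {S S' : Set Ω}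
    (h : ∀ s ∈ S', IsAlgebraic (IntermediateField.adjoin k S) s) {x : Ω}
    (hx : IsAlgebraic (IntermediateField.adjoin k S') x) :
    IsAlgebraic (IntermediateField.adjoin k S) x := by
  set K1 := IntermediateField.adjoin k S with hK1
  set M1 : IntermediateField K1 Ω := algebraicClosure K1 Ω with hM1
  have hle : IntermediateField.adjoin k S' ≤ M1.restrictScalars k := by
    rw [IntermediateField.adjoin_le_iff]
    intro a ha
    exact mem_algebraicClosure_iff.mpr (h a ha)
  have h2 : IsAlgebraic M1 x := by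
    refine alg_of_le (fun a => ⟨⟨a, hle a.2⟩, rfl⟩) hx
  exact h2.restrictScalars K1

theorem cnt : S_CNT := by
  classical
  intro k Ω _ _ _ a s β hβ f T c K₀ hK₀ hdep halg
  -- a maximal independent subfamily
  obtain ⟨J, hJ, hmax⟩ := Finset.exists_max_image
    (Finset.univ.filter (fun J : Finset (Fin (s + 1)) => AlgebraicIndepOn K₀ T (J : Set _)))
    Finset.card ⟨∅, by
      rw [Finset.mem_filter]
      refine ⟨Finset.mem_univ _, ?_⟩
      have : IsEmpty ((∅ : Finset (Fin (s + 1))) : Set (Fin (s + 1))) := by simp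
      exact algebraicIndependent_empty_type_iff.2 (algebraMap K₀ Ω).injective⟩
  have hJi : AlgebraicIndepOn K₀ T (J : Set (Fin (s + 1))) := (Finset.mem_filter.1 hJ).2
  have hTalg : ∀ i, IsAlgebraic (IntermediateField.adjoin K₀ (T '' (J : Set (Fin (s + 1))))) (T i) := by
    intro i
    by_cases hi : i ∈ J
    · exact isAlgebraic_algebraMap (⟨T i, IntermediateField.subset_adjoin _ _ ⟨i, hi, rfl⟩⟩ :
        IntermediateField.adjoin K₀ (T '' (J : Set (Fin (s + 1)))))
    · by_contra hcon
      have h1 : Transcendental (Algebra.adjoin K₀ (T '' (J : Set (Fin (s + 1))))) (T i) :=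
        IntermediateField.transcendental_adjoin_iff.1 hcon
      have h2 := hJi.insert h1
      have h3 := hmax (insert i J) (by
        rw [Finset.mem_filter]
        refine ⟨Finset.mem_univ _, ?_⟩
        rw [Finset.coe_insert]
        exact h2)
      rw [Finset.card_insert_of_notMem hi] at h3
      omega
  have hJne : J ≠ Finset.univ := by
    intro h
    apply hdep
    have h1 : ∀ i, i ∈ (J : Set (Fin (s + 1))) := fun i => by rw [h]; simp
    exact hJi.comp (fun i : Fin (s + 1) => (⟨i, h1 i⟩ : (J : Set (Fin (s + 1)))))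
      (fun i j hij => congrArg Subtype.val hij)
  have hJcard : J.card ≤ s := by
    have h1 := (Finset.card_lt_iff_ne_univ J).2 hJne
    rw [Fintype.card_fin] at h1
    omega
  -- the spanning family
  let g : Fin a ⊕ (J ⊕ Unit) → Ω := Sum.elim f (Sum.elim (fun j : J => T j) (fun _ => c))
  have hfg : Set.range f ⊆ Set.range g := by
    rintro _ ⟨i, rfl⟩
    exact ⟨Sum.inl i, rfl⟩
  have hcg : c ∈ Set.range g := ⟨Sum.inr (Sum.inr ()), rfl⟩
  have hTg : ∀ {S : Set Ω}, Set.range f ⊆ S → T '' (J : Set (Fin (s + 1))) ⊆ S → ∀ i,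
      IsAlgebraic (IntermediateField.adjoin k S) (T i) := by
    intro S hf hT i
    refine alg_of_le (fun y => ?_) (hTalg i)
    obtain ⟨y, hy⟩ := y
    refine ⟨⟨y, ?_⟩, rfl⟩
    induction hy using IntermediateField.adjoin_induction with
    | mem x hx => exact IntermediateField.subset_adjoin k _ (hT hx)
    | algebraMap x => exact IntermediateField.adjoin.mono k _ _ hf (hK₀ x.2)
    | add x y _ _ ihx ihy => exact add_mem ihx ihy
    | inv x _ ih => exact inv_mem ih
    | mul x y _ _ ihx ihy => exact mul_mem ihx ihy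
  have hself : ∀ {S : Set Ω} {x : Ω}, x ∈ S → IsAlgebraic (IntermediateField.adjoin k S) x := by
    intro S x hx
    exact isAlgebraic_algebraMap (⟨x, IntermediateField.subset_adjoin _ _ hx⟩ :
      IntermediateField.adjoin k S)
  have halg' : ∀ x : Ω, IsAlgebraic (IntermediateField.adjoin k (Set.range g)) x := by
    intro x
    refine alg_trans ?_ (halg x)
    rintro y ((hy | ⟨i, rfl⟩) | hy)
    · exact hself (hfg hy)
    · refine hTg hfg ?_ i
      rintro _ ⟨j, hj, rfl⟩
      exact ⟨Sum.inr (Sum.inl ⟨j, hj⟩), rfl⟩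
    · rw [Set.mem_singleton_iff] at hy
      rw [hy]
      exact hself hcg
  have h1 : Algebra.IsAlgebraic (Algebra.adjoin k (Set.range g)) Ω :=
    ⟨fun x => IntermediateField.isAlgebraic_adjoin_iff.1 (halg' x)⟩
  have htr : ((a + s + 1 : ℕ) : Cardinal) ≤ Algebra.trdeg k Ω := by
    have := hβ.cardinalMk_le_trdeg
    rwa [mk_fin] at this
  have hcardg : #(Fin a ⊕ (J ⊕ Unit)) = ((a + (J.card + 1) : ℕ) : Cardinal) := by
    rw [mk_fintype]
    simp
  have hbas : IsTranscendenceBasis k g := by
    apply Algebra.IsAlgebraic.isTranscendenceBasis_of_le_trdeg_of_finite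
    rw [hcardg]
    refine le_trans ?_ htr
    exact_mod_cast (by omega : a + (J.card + 1) ≤ a + s + 1)
  have hJs : J.card = s := by
    have h2 := hbas.cardinalMk_eq_trdeg
    rw [← h2, hcardg] at htr
    have h3 : a + s + 1 ≤ a + (J.card + 1) := by exact_mod_cast htr
    omega
  have hg := hbas.1
  refine ⟨hg.comp Sum.inl Sum.inl_injective, ?_, J, hJs, ?_, hTalg⟩
  · intro hc
    have h2 : AlgebraicIndependent k (fun o : Option (Fin a ⊕ J) =>
        o.elim c (Sum.elim f (fun j : J => T j))) := by
      have h3 := hg.comp (fun o : Option (Fin a ⊕ J) => o.elim (Sum.inr (Sum.inr ()))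
        (Sum.elim Sum.inl (fun j => Sum.inr (Sum.inl j)))) (by
          rintro (_ | (i | i)) (_ | (j | j)) hij
          · rfl
          · exact (Sum.inr_ne_inl hij).elim
          · exact (Sum.inr_ne_inl (Sum.inr.inj hij)).elim
          · exact (Sum.inl_ne_inr hij).elim
          · exact congrArg (fun z => some (Sum.inl z)) (Sum.inl.inj hij)
          · exact (Sum.inl_ne_inr hij).elim
          · exact (Sum.inl_ne_inr (Sum.inr.inj hij)).elim
          · exact (Sum.inr_ne_inl hij).elim
          · exact congrArg (fun z => some (Sum.inr z)) (Sum.inl.inj (Sum.inr.inj hij)))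
      convert h3 using 1
      funext o
      rcases o with _ | (i | i) <;> rfl
    have h3 := (AlgebraicIndependent.option_iff.1 h2).2
    rw [← IntermediateField.transcendental_adjoin_iff] at h3
    apply h3
    refine alg_trans ?_ hc
    rintro y (hy | ⟨i, rfl⟩)
    · obtain ⟨i, rfl⟩ := hy
      exact hself ⟨Sum.inl i, rfl⟩
    · refine hTg ?_ ?_ i
      · rintro _ ⟨i, rfl⟩
        exact ⟨Sum.inl i, rfl⟩
      · rintro _ ⟨j, hj, rfl⟩
        exact ⟨Sum.inr ⟨j, hj⟩, rfl⟩
  · rw [IntermediateField.algebraicIndependent_adjoin_iff]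
    have h2 : AlgebraicIndependent k (Sum.elim (fun j : J => T j) f) := by
      have h3 := hg.comp (Sum.elim (fun j : J => Sum.inr (Sum.inl j)) Sum.inl) (by
          rintro (i | i) (j | j) hij
          · exact congrArg Sum.inl (Sum.inl.inj (Sum.inr.inj hij))
          · exact (Sum.inr_ne_inl hij).elim
          · exact (Sum.inl_ne_inr hij).elim
          · exact congrArg Sum.inr (Sum.inl.inj hij))
      convert h3 using 1
      funext o
      rcases o with i | i <;> rfl
    exact (AlgebraicIndependent.sumElim_iff.1 h2).2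

end Pool.Agent.W417.HP
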