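import Pool.Agent.W417.HP.Der

/-!
# Local nilpotency from a specialisation
-/

set_option autoImplicit false

open Polynomial W560.HP

namespace Pool.Agent.W417.HP

/-- A twisted derivation on an algebraic extension of `L` which vanishes on `L` is zero. -/
theorem twist_zero {L K Q : Type} [Field L] [Field K] [Field Q] [Algebra L K] [CharZero L]
    [Algebra.IsAlgebraic L K] (ψ : K →+* Q) (d : K → Q) (hadd : ∀ x y, d (x + y) = d x + d y)
    (hmul : ∀ x y, d (x * y) = ψ x * d y + ψ y * d x) (hL : ∀ y : L, d (algebraMap L K y) = 0)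
    (x : K) : d x = 0 := by
  have h1 : d 1 = 0 := by rw [← (algebraMap L K).map_one]; exact hL 1
  have hpow : ∀ n : ℕ, d (x ^ n) = (n : Q) * ψ x ^ (n - 1) * d x := by
    intro n
    induction n with
    | zero => simp [h1]
    | succ n ih =>
      rw [pow_succ, hmul, ih, map_pow, Nat.add_sub_cancel]
      rcases Nat.eq_zero_or_pos n with rfl | hn
      · simp
      · obtain ⟨m, rfl⟩ : ∃ m, n = m + 1 := ⟨n - 1, by omega⟩
        rw [Nat.add_sub_cancel]
        push_cast
        ring
  have key : ∀ q : L[X], d (aeval x q) = ψ (aeval x (derivative q)) * d x := by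
    intro q
    induction q using Polynomial.induction_on' with
    | add p q hp hq => rw [derivative_add, map_add, map_add, map_add, hadd, hp, hq]; ring
    | monomial n a =>
      rw [aeval_monomial, derivative_monomial, aeval_monomial, hmul, hL, mul_zero, add_zero, hpow,
        map_mul, map_mul, map_mul, map_natCast, map_natCast, map_pow]
      ring
  have hx : IsIntegral L x := (Algebra.IsAlgebraic.isAlgebraic x).isIntegral
  have hsep : (minpoly L x).Separable := (minpoly.irreducible hx).separable
  have hne : aeval x (derivative (minpoly L x)) ≠ 0 :=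
    hsep.aeval_derivative_ne_zero (minpoly.aeval L x)
  have h2 := key (minpoly L x)
  have h0 : d 0 = 0 := by
    have := hadd 0 0
    rw [add_zero] at this
    simpa using this
  rw [minpoly.aeval, h0] at h2
  exact (mul_eq_zero.1 h2.symm).resolve_left ((map_ne_zero ψ).2 hne)

theorem der_frac {E : Type} [Field E] (δ : Derivation E (FractionRing E[X]) (FractionRing E[X]))
    (hδ : δ (algebraMap E[X] (FractionRing E[X]) X) = 1) (P : E[X]) :
    δ (algebraMap E[X] (FractionRing E[X]) P) =
      algebraMap E[X] (FractionRing E[X]) (derivative P) := by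
  have h1 : ∀ P : E[X], algebraMap E[X] (FractionRing E[X]) P =
      aeval (algebraMap E[X] (FractionRing E[X]) X) P := by
    intro P
    rw [aeval_algebraMap_apply, aeval_X_left_apply]
  rw [h1 P, h1 (derivative P), δ.map_aeval, hδ, smul_eq_mul, mul_one]

theorem d2 (hd1 : S_D1) : S_D2 := by
  intro k F ι _ _ _ _ _ _ w hw i D hD hsp x hx
  have hF : CharZero F := charZero_of_injective_algebraMap (algebraMap k F).injective
  obtain ⟨E, _, _, B, φ, v, hφ, hB, hwj, hwi⟩ := hsp
  have hE : CharZero E := charZero_of_injective_algebraMap (algebraMap k E).injective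
  set L := IntermediateField.adjoin k (Set.range w) with hLdef
  have hwL : ∀ j, w j ∈ L := fun j => IntermediateField.subset_adjoin k _ ⟨j, rfl⟩
  have hDL : ∀ y ∈ L, D y ∈ L := by
    apply der_mem
    rintro s ⟨j, rfl⟩
    rw [hD j]
    split_ifs
    · exact one_mem _
    · exact zero_mem _
  have hDK : ∀ x, IsAlgebraic L x → IsAlgebraic L (D x) := fun x hx => der_alg D L hDL hx
  have hA0B : ∀ a ∈ Algebra.adjoin k (Set.range w), a ∈ B := fun a ha =>
    hB a (isIntegral_algebraMap (x := (⟨a, ha⟩ : Algebra.adjoin k (Set.range w))))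
  -- the field of algebraic elements
  let K1 : IntermediateField L F := algebraicClosure L F
  have hmem : ∀ y : F, y ∈ K1 ↔ IsAlgebraic L y := fun y => mem_algebraicClosure_iff
  let R0 : Subring F := B.toSubring ⊓ K1.toSubfield.toSubring
  letI : Algebra R0 K1 := (Subring.inclusion (inf_le_right : R0 ≤ K1.toSubfield.toSubring)).toAlgebra
  have hcoe : ∀ y : R0, ((algebraMap R0 K1 y : K1) : F) = y := fun y => rfl
  haveI : FaithfulSMul R0 K1 := by
    rw [faithfulSMul_iff_algebraMap_injective]
    intro a b hab
    apply Subtype.ext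
    rw [← hcoe a, ← hcoe b, hab]
  haveI : IsFractionRing R0 K1 := by
    apply IsFractionRing.of_field
    intro z
    obtain ⟨a, ha, ha0, hint⟩ := exists_int ((hmem _).1 z.2)
    have haL : a ∈ L := IntermediateField.algebra_adjoin_le_adjoin k _ ha
    have haK : a ∈ K1 := K1.algebraMap_mem ⟨a, haL⟩
    refine ⟨⟨a * z, hB _ hint, mul_mem haK z.2⟩, ⟨a, hA0B a ha, haK⟩, ?_⟩
    apply Subtype.ext
    show (z : F) = (a * z) / a
    field_simp
  let incl : R0 →+* B :=
    { toFun := fun y => ⟨y, y.2.1⟩
      map_one' := rfl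
      map_mul' := fun _ _ => rfl
      map_zero' := rfl
      map_add' := fun _ _ => rfl }
  let g : R0 →+* FractionRing E[X] :=
    (algebraMap E[X] (FractionRing E[X])).comp ((φ : B →+* E[X]).comp incl)
  have hg : Function.Injective g := by
    intro a b hab
    have h1 := IsFractionRing.injective E[X] (FractionRing E[X]) hab
    have h2 : incl a = incl b := hφ h1
    exact Subtype.ext (congrArg (fun y : B => (y : F)) h2)
  let ψ : K1 →+* FractionRing E[X] := IsFractionRing.lift hg
  have hψ : ∀ (y : F) (h1 : y ∈ B) (h2 : y ∈ K1), ψ ⟨y, h2⟩ =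
      algebraMap E[X] (FractionRing E[X]) (φ ⟨y, h1⟩) := fun y h1 h2 =>
    IsFractionRing.lift_algebraMap hg (⟨y, h1, h2⟩ : R0)
  -- the derivation of the rational function field
  have htr : AlgebraicIndependent E (fun _ : Unit => algebraMap E[X] (FractionRing E[X]) X) := by
    rw [algebraicIndependent_unique_type_iff]
    exact (transcendental_algebraMap_iff (IsFractionRing.injective E[X] (FractionRing E[X]))).2
      (Polynomial.transcendental_X E)
  obtain ⟨δ, hδ0⟩ := hd1 E (FractionRing E[X]) Unit _ htr ()
  have hδ : δ (algebraMap E[X] (FractionRing E[X]) X) = 1 := by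
    have := hδ0 ()
    simpa using this
  have hδP := der_frac δ hδ
  let D' : K1 → K1 := fun y => ⟨D y, (hmem _).2 (hDK _ ((hmem _).1 y.2))⟩
  have hwK : ∀ j, w j ∈ K1 := fun j => K1.algebraMap_mem ⟨w j, hwL j⟩
  have hwB : ∀ j, w j ∈ B := fun j => hA0B _ (Algebra.subset_adjoin ⟨j, rfl⟩)
  have key : ∀ y : K1, ψ (D' y) = δ (ψ y) := by
    intro y
    let d : K1 → FractionRing E[X] := fun y => ψ (D' y) - δ (ψ y)
    have hadd : ∀ x y, d (x + y) = d x + d y := by
      intro x y
      have h1 : D' (x + y) = D' x + D' y := Subtype.ext (D.map_add _ _)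
      show ψ (D' (x + y)) - δ (ψ (x + y)) = (ψ (D' x) - δ (ψ x)) + (ψ (D' y) - δ (ψ y))
      rw [h1, map_add, map_add, map_add]
      ring
    have hmul : ∀ x y, d (x * y) = ψ x * d y + ψ y * d x := by
      intro x y
      have h1 : D' (x * y) = x * D' y + y * D' x := by
        apply Subtype.ext
        show D ((x : F) * y) = x * D y + y * D x
        rw [D.leibniz, smul_eq_mul, smul_eq_mul]
      show ψ (D' (x * y)) - δ (ψ (x * y)) = ψ x * (ψ (D' y) - δ (ψ y)) + ψ y * (ψ (D' x) - δ (ψ x))
      rw [h1, map_add, map_mul, map_mul, map_mul, δ.leibniz, smul_eq_mul, smul_eq_mul]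
      ring
    have h0 : d 0 = 0 := by
      have := hadd 0 0
      rw [add_zero] at this
      simpa using this
    have h1 : d 1 = 0 := by
      have := hmul 1 1
      rw [mul_one, map_one, one_mul] at this
      simpa using this
    have hL : ∀ y : L, d (algebraMap L K1 y) = 0 := by
      rintro ⟨y, hy⟩
      induction hy using IntermediateField.adjoin_induction with
      | mem s hs =>
        obtain ⟨j, rfl⟩ := hs
        show ψ (D' ⟨w j, hwK j⟩) - δ (ψ ⟨w j, hwK j⟩) = 0
        rw [hψ (w j) (hwB j) (hwK j), hδP]
        by_cases hji : j = i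
        · subst hji
          have h2 : D' ⟨w j, hwK j⟩ = 1 := by
            apply Subtype.ext
            show D (w j) = 1
            rw [hD, if_pos rfl]
          rw [h2, map_one, hwi (hwB j), derivative_X, map_one, sub_self]
        · have h2 : D' ⟨w j, hwK j⟩ = 0 := by
            apply Subtype.ext
            show D (w j) = 0
            rw [hD, if_neg hji]
          rw [h2, map_zero, hwj j (hwB j) hji, derivative_C, map_zero, sub_self]
      | algebraMap c =>
        have hcK : algebraMap k F c ∈ K1 := K1.algebraMap_mem ⟨_, L.algebraMap_mem c⟩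
        show ψ (D' ⟨algebraMap k F c, hcK⟩) - δ (ψ ⟨algebraMap k F c, hcK⟩) = 0
        have h2 : D' ⟨algebraMap k F c, hcK⟩ = 0 := by
          apply Subtype.ext
          show D (algebraMap k F c) = 0
          exact D.map_algebraMap c
        have h3 : φ (algebraMap k B c) = C (algebraMap k E c) := by
          rw [AlgHom.commutes]
          rfl
        have h4 : ψ ⟨algebraMap k F c, hcK⟩ =
            algebraMap E[X] (FractionRing E[X]) (φ (algebraMap k B c)) :=
          hψ _ (B.algebraMap_mem c) hcK
        rw [h2, map_zero, h4, hδP, h3, derivative_C, map_zero, sub_zero]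
      | add x y hx hy ihx ihy =>
        have := hadd (algebraMap L K1 ⟨x, hx⟩) (algebraMap L K1 ⟨y, hy⟩)
        rw [ihx, ihy, add_zero] at this
        exact this
      | inv x hx ih =>
        by_cases hx0 : x = 0
        · subst hx0
          have h2 : algebraMap L K1 ⟨(0 : F)⁻¹, inv_mem hx⟩ = 0 := by
            apply Subtype.ext
            exact inv_zero
          rw [h2]
          exact h0
        · have h2 := hmul (algebraMap L K1 ⟨x, hx⟩) (algebraMap L K1 ⟨x⁻¹, inv_mem hx⟩)
          have h3 : algebraMap L K1 ⟨x, hx⟩ * algebraMap L K1 ⟨x⁻¹, inv_mem hx⟩ = 1 := by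
            apply Subtype.ext
            exact mul_inv_cancel₀ hx0
          rw [h3, h1, ih, mul_zero, add_zero] at h2
          refine (mul_eq_zero.1 h2.symm).resolve_left ((map_ne_zero ψ).2 ?_)
          intro h4
          exact hx0 (congrArg (fun y : K1 => (y : F)) h4)
      | mul x y hx hy ihx ihy =>
        have := hmul (algebraMap L K1 ⟨x, hx⟩) (algebraMap L K1 ⟨y, hy⟩)
        rw [ihx, ihy, mul_zero, mul_zero, add_zero] at this
        exact this
    have h2 : d y = 0 := twist_zero ψ d hadd hmul hL y
    exact sub_eq_zero.1 h2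
  -- conclusion
  have hxB : x ∈ B := hB x hx
  have hxK : x ∈ K1 := by
    rw [hmem]
    obtain ⟨p, hp1, hp2⟩ := hx
    refine ⟨p.map (Subalgebra.inclusion (IntermediateField.algebra_adjoin_le_adjoin k
      (Set.range w))).toRingHom, ?_, ?_⟩
    · exact (hp1.map _).ne_zero
    · rw [aeval_def, eval₂_map]
      exact hp2
  have hit : ∀ N : ℕ, ((D'^[N] ⟨x, hxK⟩ : K1) : F) = D^[N] x := by
    intro N
    induction N with
    | zero => rfl
    | succ N ih =>
      rw [Function.iterate_succ', Function.iterate_succ', Function.comp_apply, Function.comp_apply,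
        ← ih]
  have hit2 : ∀ N : ℕ, ψ (D'^[N] ⟨x, hxK⟩) =
      algebraMap E[X] (FractionRing E[X]) (derivative^[N] (φ ⟨x, hxB⟩)) := by
    intro N
    induction N with
    | zero => exact hψ x hxB hxK
    | succ N ih =>
      rw [Function.iterate_succ', Function.iterate_succ', Function.comp_apply, Function.comp_apply,
        key, ih, hδP]
  refine ⟨(φ ⟨x, hxB⟩).natDegree + 1, ?_⟩
  rw [← hit]
  have h1 : D'^[(φ ⟨x, hxB⟩).natDegree + 1] ⟨x, hxK⟩ = 0 := by
    apply (map_eq_zero ψ).1
    rw [hit2, iterate_derivative_eq_zero (Nat.lt_succ_self _), map_zero]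
  rw [h1]
  rfl

end Pool.Agent.W417.HP
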