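import Pool.Agent.W417.HP.Der

/-!
# Locally nilpotent commuting derivations: the algebraic elements are rational
-/

set_option autoImplicit false

open Polynomial W560.HP

namespace Pool.Agent.W417.HP

theorem der_sum_apply {k F ι : Type} [Field k] [Field F] [Algebra k F] (s : Finset ι)
    (f : ι → Derivation k F F) (x : F) : (∑ j ∈ s, f j) x = ∑ j ∈ s, f j x := by
  classical
  induction s using Finset.induction_on with
  | empty => simp
  | insert a s ha ih => rw [Finset.sum_insert ha, Finset.sum_insert ha, Derivation.add_apply, ih]

theorem iter_sum {k F ι : Type} [Field k] [Field F] [Algebra k F] (D : Derivation k F F) (M : ℕ)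
    (s : Finset ι) (f : ι → F) : D^[M] (∑ j ∈ s, f j) = ∑ j ∈ s, D^[M] (f j) := by
  induction M with
  | zero => rfl
  | succ M ih =>
    simp only [Function.iterate_succ', Function.comp_apply, ih, map_sum]

theorem iter_mul {k F : Type} [Field k] [Field F] [Algebra k F] (D : Derivation k F F) (M : ℕ)
    (c y : F) (hc : D c = 0) : D^[M] (c * y) = c * D^[M] y := by
  induction M with
  | zero => rfl
  | succ M ih =>
    rw [Function.iterate_succ', Function.comp_apply, ih, D.leibniz, hc, smul_zero, add_zero,
      Function.comp_apply, smul_eq_mul]

/-- the coefficients of the integration formula -/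
noncomputable def cf (k : Type) {F : Type} [Field k] [Field F] [Algebra k F] (w : F) (m : ℕ) : F :=
  ((m.factorial : k)⁻¹) • (-w) ^ m

theorem cf_zero {k F : Type} [Field k] [Field F] [Algebra k F] (w : F) : cf k w 0 = 1 := by
  simp [cf]

theorem der_cf {k F : Type} [Field k] [CharZero k] [Field F] [Algebra k F] (D : Derivation k F F)
    (w : F) (hw : D w = 1) (m : ℕ) : D (cf k w (m + 1)) = - cf k w m := by
  unfold cf
  rw [D.map_smul, D.leibniz_pow, map_neg, hw, Nat.add_sub_cancel, ← smul_neg]
  have h1 : ((m + 1).factorial : k) = ((m + 1 : ℕ) : k) * (m.factorial : k) := by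
    rw [Nat.factorial_succ, Nat.cast_mul]
  have h2 : ((m + 1 : ℕ) : k) ≠ 0 := Nat.cast_ne_zero.2 (Nat.succ_ne_zero m)
  have h3 : (m + 1) • (-w) ^ m • (-1 : F) = ((m + 1 : ℕ) : k) • (-(-w) ^ m) := by
    rw [Nat.cast_smul_eq_nsmul]
    congr 1
    rw [smul_eq_mul, mul_neg, mul_one]
  rw [h3, smul_smul, h1, mul_inv, mul_assoc, mul_comm (m.factorial : k)⁻¹, ← mul_assoc,
    inv_mul_cancel₀ h2, one_mul]

theorem der_cf_zero {k F : Type} [Field k] [Field F] [Algebra k F] (D : Derivation k F F)
    (w : F) (hw : D w = 0) (m : ℕ) : D (cf k w m) = 0 := by
  unfold cf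
  rw [D.map_smul, D.leibniz_pow, map_neg, hw]
  simp

theorem der_tele {k F : Type} [Field k] [CharZero k] [Field F] [Algebra k F]
    (D : Derivation k F F) (w : F) (hw : D w = 1) (x : F) (m : ℕ) :
    D (∑ j ∈ Finset.range (m + 1), cf k w j * D^[j] x) = cf k w m * D^[m + 1] x := by
  induction m with
  | zero => simp [cf_zero]
  | succ m ih =>
    rw [Finset.sum_range_succ, map_add, ih, D.leibniz, der_cf D w hw, smul_eq_mul, smul_eq_mul,
      Function.iterate_succ' (D : F → F) (m + 1), Function.comp_apply]
    ring

theorem d3 (hd1 : S_D1) : S_D3 := by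
  intro k F ι _ _ _ _ _ _ w hw hk D hD hln
  have hF : CharZero F := charZero_of_injective_algebraMap (algebraMap k F).injective
  have hι : Fintype ι := Fintype.ofFinite ι
  set L := IntermediateField.adjoin k (Set.range w) with hLdef
  have hwL : ∀ j, w j ∈ L := fun j => IntermediateField.subset_adjoin k _ ⟨j, rfl⟩
  have hDL : ∀ i, ∀ y ∈ L, D i y ∈ L := by
    intro i
    apply der_mem
    rintro s ⟨j, rfl⟩
    rw [hD i j]
    split_ifs
    · exact one_mem _
    · exact zero_mem _
  have hDK : ∀ i x, IsAlgebraic L x → IsAlgebraic L (D i x) := fun i x hx =>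
    der_alg (D i) L (hDL i) hx
  have hcomm : ∀ i j x, IsAlgebraic L x → D i (D j x) = D j (D i x) := by
    intro i j x hx
    have h1 : ⁅D i, D j⁆ x = 0 := by
      apply der_alg_zero (⁅D i, D j⁆) (Set.range w) _ hx
      rintro s ⟨l, rfl⟩
      rw [Derivation.commutator_apply, hD, hD]
      split_ifs <;> simp
    rw [Derivation.commutator_apply] at h1
    exact sub_eq_zero.1 h1
  have hDiter : ∀ i n x, IsAlgebraic L x → IsAlgebraic L ((D i)^[n] x) := by
    intro i n
    induction n with
    | zero => intro x hx; exact hx
    | succ n ih =>
      intro x hx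
      rw [Function.iterate_succ', Function.comp_apply]
      exact hDK i _ (ih x hx)
  have hcit : ∀ i l M x, IsAlgebraic L x → (D l)^[M] (D i x) = D i ((D l)^[M] x) := by
    intro i l M
    induction M with
    | zero => intro x _; rfl
    | succ M ih =>
      intro x hx
      rw [Function.iterate_succ', Function.comp_apply, ih x hx, Function.comp_apply]
      exact hcomm _ _ _ (hDiter _ _ _ hx)
  have hkill : ∀ i l M j x, IsAlgebraic L x → (D l)^[M] x = 0 → (D l)^[M] ((D i)^[j] x) = 0 := by
    intro i l M j
    induction j with
    | zero => intro x _ h; exact h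
    | succ j ih =>
      intro x hx h
      rw [Function.iterate_succ', Function.comp_apply, hcit i l M _ (hDiter i j x hx), ih x hx h,
        map_zero]
  have hconst : ∀ x, IsAlgebraic L x → (∀ i, D i x = 0) → x ∈ L := by
    intro x hx h0
    by_cases halg : IsAlgebraic k x
    · obtain ⟨c, rfl⟩ := hk x halg
      exact L.algebraMap_mem c
    · exfalso
      have htr : AlgebraicIndependent k (fun _ : Unit => x) :=
        algebraicIndependent_unique_type_iff.2 halg
      obtain ⟨D0, hD0⟩ := hd1 k F Unit (fun _ => x) htr ()
      have h1 : D0 x = 1 := by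
        have := hD0 ()
        simpa using this
      have h2 : (D0 - ∑ j, D0 (w j) • D j) x = 0 := by
        apply der_alg_zero _ (Set.range w) _ hx
        rintro s ⟨l, rfl⟩
        rw [Derivation.sub_apply, der_sum_apply]
        have h3 : ∀ j, (D0 (w j) • D j) (w l) = if j = l then D0 (w j) else 0 := by
          intro j
          rw [Derivation.smul_apply, hD, smul_eq_mul]
          by_cases hjl : j = l
          · subst hjl; simp
          · rw [if_neg (fun h => hjl h.symm), if_neg hjl, mul_zero]
        rw [Finset.sum_congr rfl (fun j _ => h3 j), Finset.sum_ite_eq' Finset.univ l]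
        simp
      rw [Derivation.sub_apply, der_sum_apply, h1] at h2
      have h3 : ∑ j, (D0 (w j) • D j) x = 0 := by
        apply Finset.sum_eq_zero
        intro j _
        rw [Derivation.smul_apply, h0 j, smul_zero]
      rw [h3, sub_zero] at h2
      exact one_ne_zero h2
  have main : ∀ n : ℕ, ∀ N : ι → ℕ, ∑ i, N i = n → ∀ x, IsAlgebraic L x →
      (∀ i, (D i)^[N i] x = 0) → x ∈ L := by
    intro n
    induction n using Nat.strong_induction_on with
    | _ n IH =>
      intro N hN x hx hNx
      by_cases h0 : ∀ i, D i x = 0
      · exact hconst x hx h0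
      · push Not at h0
        obtain ⟨i, hi⟩ := h0
        have hNi : 2 ≤ N i := by
          by_contra hlt
          have h1 := hNx i
          interval_cases h : N i
          · apply hi
            have : x = 0 := h1
            rw [this, map_zero]
          · exact hi h1
        have hsplit : ∀ m, ∑ l, (Function.update N i m) l = m + ∑ l ∈ Finset.univ.erase i, N l := by
          intro m
          rw [← Finset.add_sum_erase _ _ (Finset.mem_univ i), Function.update_self]
          congr 1
          apply Finset.sum_congr rfl
          intro l hl
          rw [Function.update_of_ne (Finset.ne_of_mem_erase hl)]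
        have hsum0 : N i + ∑ l ∈ Finset.univ.erase i, N l = n := by
          rw [Finset.add_sum_erase _ _ (Finset.mem_univ i), hN]
        -- the derivative is rational
        have hy1 : D i x ∈ L := by
          apply IH (n - 1) (by omega) (Function.update N i (N i - 1)) _ _ (hDK i x hx)
          · intro l
            by_cases hl : l = i
            · subst hl
              rw [Function.update_self]
              have h1 := hNx l
              have h2 : N l = (N l - 1) + 1 := by omega
              rw [h2, Function.iterate_succ_apply] at h1
              exact h1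
            · rw [Function.update_of_ne hl, hcit i l _ x hx, hNx l, map_zero]
          · rw [hsplit]; omega
        have hyj : ∀ j, (D i)^[j + 1] x ∈ L := by
          intro j
          induction j with
          | zero => exact hy1
          | succ j ih =>
            rw [Function.iterate_succ', Function.comp_apply]
            exact hDL i _ ih
        set z := ∑ j ∈ Finset.range (N i), cf k (w i) j * (D i)^[j] x with hz
        have hcfL : ∀ j, cf k (w i) j ∈ L := by
          intro j
          unfold cf
          exact L.smul_mem (pow_mem (neg_mem (hwL i)) j)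
        have hwi : D i (w i) = 1 := by rw [hD, if_pos rfl]
        have hDz : D i z = 0 := by
          obtain ⟨m, hm⟩ : ∃ m, N i = m + 1 := ⟨N i - 1, by omega⟩
          rw [hz, hm, der_tele (D i) (w i) hwi x m, ← hm, hNx i, mul_zero]
        have hzalg : IsAlgebraic L z := by
          rw [← mem_algebraicClosure_iff, hz]
          apply sum_mem
          intro j _
          apply mul_mem
          · exact (algebraicClosure L F).algebraMap_mem ⟨_, hcfL j⟩
          · exact mem_algebraicClosure_iff.2 (hDiter i j x hx)
        have hzL : z ∈ L := by
          apply IH (1 + ∑ l ∈ Finset.univ.erase i, N l) (by omega) (Function.update N i 1)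
            (hsplit 1) z hzalg
          intro l
          by_cases hl : l = i
          · subst hl
            rw [Function.update_self]
            exact hDz
          · rw [Function.update_of_ne hl, hz, iter_sum]
            apply Finset.sum_eq_zero
            intro j _
            rw [iter_mul (D l) (N l) _ _ (der_cf_zero (D l) (w i) (by
              rw [hD, if_neg (fun h => hl h.symm)]) j), hkill i l (N l) j x hx (hNx l), mul_zero]
        obtain ⟨m, hm⟩ : ∃ m, N i = m + 1 := ⟨N i - 1, by omega⟩
        rw [hz, hm, Finset.sum_range_succ', cf_zero, one_mul] at hzL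
        have h1 : ∑ j ∈ Finset.range m, cf k (w i) (j + 1) * (D i)^[j + 1] x ∈ L :=
          sum_mem fun j _ => mul_mem (hcfL _) (hyj j)
        have h2 := sub_mem hzL h1
        rw [add_sub_cancel_left] at h2
        exact h2
  intro x hx
  obtain ⟨a, ha, ha0, hint⟩ := exists_int hx
  choose N hN using fun i => hln i (a * x) hint
  have haL : a ∈ L := IntermediateField.algebra_adjoin_le_adjoin k _ ha
  have h1 : IsAlgebraic L (a * x) := by
    rw [← mem_algebraicClosure_iff]
    exact mul_mem ((algebraicClosure L F).algebraMap_mem ⟨a, haL⟩) (mem_algebraicClosure_iff.2 hx)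
  have h2 := main _ N rfl (a * x) h1 hN
  have h3 : x = a⁻¹ * (a * x) := by field_simp
  rw [h3]
  exact mul_mem (inv_mem haL) h2

end Pool.Agent.W417.HP
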