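import Pool.Agent.W560.HP.Stm

/-!
# Derivations and algebraic elements
-/

set_option autoImplicit false

open Polynomial

namespace Pool.Agent.W417.HP

variable {k F : Type} [Field k] [Field F] [Algebra k F]

/-- A derivation maps the field generated by `S` to itself, if it does so with the generators. -/
theorem der_mem (D : Derivation k F F) (S : Set F)
    (h : ∀ s ∈ S, D s ∈ IntermediateField.adjoin k S) :
    ∀ y ∈ IntermediateField.adjoin k S, D y ∈ IntermediateField.adjoin k S := by
  intro y hy
  induction hy using IntermediateField.adjoin_induction with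
  | mem x hx => exact h x hx
  | algebraMap c => rw [D.map_algebraMap]; exact zero_mem _
  | add x y hx hy ihx ihy => rw [map_add]; exact add_mem ihx ihy
  | inv x hx ih =>
    rw [D.leibniz_inv, smul_eq_mul]
    exact mul_mem (neg_mem (pow_mem (inv_mem hx) 2)) ih
  | mul x y hx hy ihx ihy =>
    rw [D.leibniz, smul_eq_mul, smul_eq_mul]
    exact add_mem (mul_mem hx ihy) (mul_mem hy ihx)

/-- A derivation which vanishes on `S` vanishes on the field generated by `S`. -/
theorem der_zero (D : Derivation k F F) (S : Set F) (h : ∀ s ∈ S, D s = 0) :
    ∀ y ∈ IntermediateField.adjoin k S, D y = 0 := by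
  intro y hy
  induction hy using IntermediateField.adjoin_induction with
  | mem x hx => exact h x hx
  | algebraMap c => exact D.map_algebraMap c
  | add x y hx hy ihx ihy => rw [map_add, ihx, ihy, add_zero]
  | inv x hx ih => rw [D.leibniz_inv, ih, smul_zero]
  | mul x y hx hy ihx ihy => rw [D.leibniz, ihx, ihy, smul_zero, smul_zero, add_zero]

/-- A derivation preserving `L` preserves the set of elements algebraic over `L`. -/
theorem der_alg [CharZero F] (D : Derivation k F F) (L : IntermediateField k F)
    (hL : ∀ y ∈ L, D y ∈ L) {x : F} (hx : IsAlgebraic L x) : IsAlgebraic L (D x) := by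
  have hxK : x ∈ algebraicClosure L F := mem_algebraicClosure_iff.2 hx
  have hLK : ∀ y ∈ L, y ∈ algebraicClosure L F := fun y hy =>
    (algebraicClosure L F).algebraMap_mem ⟨y, hy⟩
  have hev : ∀ q : L[X], aeval x q ∈ algebraicClosure L F := by
    intro q
    have h1 : aeval x q = ((aeval (⟨x, hxK⟩ : algebraicClosure L F) q :
        algebraicClosure L F) : F) :=
      Polynomial.aeval_algHom_apply (algebraicClosure L F).val (⟨x, hxK⟩ : algebraicClosure L F) q
    rw [h1]
    exact SetLike.coe_mem _
  have key : ∀ q : L[X], D (aeval x q) - aeval x (derivative q) * D x ∈ algebraicClosure L F := by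
    intro q
    induction q using Polynomial.induction_on' with
    | add p q hp hq =>
      have : D (aeval x (p + q)) - aeval x (derivative (p + q)) * D x =
          (D (aeval x p) - aeval x (derivative p) * D x) +
          (D (aeval x q) - aeval x (derivative q) * D x) := by
        rw [derivative_add, map_add, map_add, map_add]
        ring
      rw [this]
      exact add_mem hp hq
    | monomial n a =>
      rw [aeval_monomial, derivative_monomial, aeval_monomial, D.leibniz, D.leibniz_pow]
      have e1 : (algebraMap L F a) • (n • x ^ (n - 1) • D x) + x ^ n • D (algebraMap L F a) -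
          algebraMap L F (a * (n : L)) * x ^ (n - 1) * D x = x ^ n * D (a : F) := by
        rw [map_mul, map_natCast]
        simp only [smul_eq_mul, nsmul_eq_mul]
        show (a : F) * ((n : F) * (x ^ (n - 1) * D x)) + x ^ n * D (a : F) -
          (a : F) * (n : F) * x ^ (n - 1) * D x = x ^ n * D (a : F)
        ring
      rw [e1]
      exact mul_mem (pow_mem hxK n) (hLK _ (hL _ a.2))
  have hint : IsIntegral L x := hx.isIntegral
  have hsep : (minpoly L x).Separable := (minpoly.irreducible hint).separable
  have hne : aeval x (derivative (minpoly L x)) ≠ 0 :=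
    hsep.aeval_derivative_ne_zero (minpoly.aeval L x)
  have h2 := key (minpoly L x)
  rw [minpoly.aeval, map_zero, zero_sub] at h2
  have h3 : D x = -(-(aeval x (derivative (minpoly L x)) * D x)) *
      (aeval x (derivative (minpoly L x)))⁻¹ := by
    rw [neg_neg]
    field_simp
  rw [← mem_algebraicClosure_iff, h3]
  exact mul_mem (neg_mem h2) (inv_mem (hev _))

/-- A derivation which vanishes on `S` vanishes on the elements algebraic over the field generated
by `S`. -/
theorem der_alg_zero [CharZero F] (D : Derivation k F F) (S : Set F) (h : ∀ s ∈ S, D s = 0) {x : F}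
    (hx : IsAlgebraic (IntermediateField.adjoin k S) x) : D x = 0 := by
  set L := IntermediateField.adjoin k S
  have hL := der_zero D S h
  have key : ∀ q : L[X], D (aeval x q) = aeval x (derivative q) * D x := by
    intro q
    induction q using Polynomial.induction_on' with
    | add p q hp hq => rw [derivative_add, map_add, map_add, map_add, hp, hq]; ring
    | monomial n a =>
      rw [aeval_monomial, derivative_monomial, aeval_monomial, D.leibniz, D.leibniz_pow,
        map_mul, map_natCast]
      have e1 : D (algebraMap L F a) = 0 := hL _ a.2
      rw [e1]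
      simp only [smul_eq_mul, nsmul_eq_mul]
      ring
  have hint : IsIntegral L x := hx.isIntegral
  have hsep : (minpoly L x).Separable := (minpoly.irreducible hint).separable
  have hne : aeval x (derivative (minpoly L x)) ≠ 0 :=
    hsep.aeval_derivative_ne_zero (minpoly.aeval L x)
  have h2 := key (minpoly L x)
  rw [minpoly.aeval, map_zero] at h2
  exact (mul_eq_zero.1 h2.symm).resolve_left hne

open scoped IntermediateField.algebraAdjoinAdjoin in
/-- Elements algebraic over the field generated by `S` have integral multiples over the ring. -/
theorem exists_int {S : Set F} {x : F} (hx : IsAlgebraic (IntermediateField.adjoin k S) x) :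
    ∃ a ∈ Algebra.adjoin k S, a ≠ 0 ∧ IsIntegral (Algebra.adjoin k S) (a * x) := by
  have h1 : IsAlgebraic (Algebra.adjoin k S) x := hx.restrictScalars (Algebra.adjoin k S)
  obtain ⟨y, hy, h2⟩ := h1.exists_integral_multiple
  exact ⟨y, y.2, fun h => hy (Subtype.ext h), h2⟩

end Pool.Agent.W417.HP
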